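import Pool.Agent.DG.Top
import Pool.Agent.N9.KL

set_option autoImplicit false

/-!
# Distinct zero-sum triples: `D(G)` for every finite abelian group, up to a small error

`D G` is the largest size of a subset of the finite abelian group `G` with no three pairwise
distinct elements of sum `0`; `f G` is the same with repetitions allowed.  We compute `f T`
exactly for every finite abelian `3`-group `T`, bound `D T - f T` on both sides, and reduce
`D G` for every finite abelian group `G` to these groups up to a bounded error.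
-/

namespace Pool.Agent.Results.MP_a8fd3e_co.AsymptoticAllGroups
open Finset

universe u

/-- No three pairwise distinct elements of `H` have sum `0`. -/
def Admissible {G : Type u} [AddCommGroup G] (H : Finset G) : Prop :=
  ∀ x ∈ H, ∀ y ∈ H, ∀ z ∈ H, x ≠ y → x ≠ z → y ≠ z → x + y + z ≠ 0

/-- The largest size of an admissible subset of `G`. -/
noncomputable def D (G : Type u) [AddCommGroup G] : ℕ :=
  sSup {k | ∃ H : Finset G, Admissible H ∧ H.card = k}

/-- No three elements of `A`, repetitions allowed, have sum `0`. -/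
def ZeroSumFree {G : Type u} [AddCommGroup G] (A : Finset G) : Prop :=
  ∀ x ∈ A, ∀ y ∈ A, ∀ z ∈ A, x + y + z ≠ 0

/-- The largest size of a subset of `G` in which no three elements, repetitions allowed, have
sum `0`. -/
noncomputable def f (G : Type u) [AddCommGroup G] : ℕ :=
  sSup {k | ∃ A : Finset G, ZeroSumFree A ∧ A.card = k}

/-- The Roth number: the largest size of a subset of `G` in which `x + z = y + y` forces
`x = y`. -/
noncomputable def r3 (G : Type u) [AddCommGroup G] : ℕ :=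
  sSup {k | ∃ S : Finset G, (∀ x ∈ S, ∀ y ∈ S, ∀ z ∈ S, x + z = y + y → x = y) ∧ S.card = k}

/-- `T` is the direct sum of cyclic groups of orders `3^(k 0) ≥ 3^(k 1) ≥ ⋯ ≥ 3^(k (n-1)) ≥ 3`. -/
def Shape (T : Type u) [AddCommGroup T] {n : ℕ} (k : Fin n → ℕ) : Prop :=
  Antitone k ∧ (∀ i, 1 ≤ k i) ∧ Nonempty (T ≃+ ((i : Fin n) → ZMod (3 ^ k i)))

/-- `∑ i, 2^i (3^(k i - 1) - 1) ∏_{j > i} 3^(k j)`. -/
def val {n : ℕ} (k : Fin n → ℕ) : ℕ :=
  ∑ i : Fin n, 2 ^ (i : ℕ) * (3 ^ (k i - 1) - 1) * ∏ j ∈ Finset.Ioi i, 3 ^ k j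

/-- The number of cyclic factors of order at least `9`. -/
def big {n : ℕ} (k : Fin n → ℕ) : ℕ := (Finset.univ.filter (fun i => 2 ≤ k i)).card

theorem D_eq (G : Type u) [AddCommGroup G] : D G = DG.D G := rfl

theorem f_spec (G : Type u) [AddCommGroup G] [Finite G] :
    (∃ A : Finset G, N9.SF A ∧ A.card = f G) ∧ ∀ A : Finset G, N9.SF A → A.card ≤ f G := by
  classical
  have _ := Fintype.ofFinite G
  have hb : BddAbove {k | ∃ A : Finset G, ZeroSumFree A ∧ A.card = k} := by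
    refine ⟨Fintype.card G, ?_⟩
    rintro k ⟨A, _, rfl⟩
    exact Finset.card_le_univ A
  have hne : {k | ∃ A : Finset G, ZeroSumFree A ∧ A.card = k}.Nonempty :=
    ⟨0, ∅, fun x hx => absurd hx (Finset.notMem_empty x), rfl⟩
  exact ⟨Nat.sSup_mem hne hb, fun A hA => le_csSup hb ⟨A, hA, rfl⟩⟩

theorem r3_spec (G : Type u) [AddCommGroup G] [Finite G] (S : Finset G)
    (hS : ThreeAPFree (S : Set G)) : S.card ≤ r3 G := by
  classical
  have _ := Fintype.ofFinite G
  apply le_csSup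
  · refine ⟨Fintype.card G, ?_⟩
    rintro k ⟨A, _, rfl⟩
    exact Finset.card_le_univ A
  · exact ⟨S, fun x hx y hy z hz h => hS (Finset.mem_coe.2 hx) (Finset.mem_coe.2 hy)
      (Finset.mem_coe.2 hz) h, rfl⟩

theorem r3_attained (G : Type u) [AddCommGroup G] [Finite G] :
    ∃ S : Finset G, ThreeAPFree (S : Set G) ∧ S.card = r3 G := by
  classical
  have _ := Fintype.ofFinite G
  have hb : BddAbove {k | ∃ S : Finset G,
      (∀ x ∈ S, ∀ y ∈ S, ∀ z ∈ S, x + z = y + y → x = y) ∧ S.card = k} := by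
    refine ⟨Fintype.card G, ?_⟩
    rintro k ⟨A, _, rfl⟩
    exact Finset.card_le_univ A
  have hne : {k | ∃ S : Finset G,
      (∀ x ∈ S, ∀ y ∈ S, ∀ z ∈ S, x + z = y + y → x = y) ∧ S.card = k}.Nonempty :=
    ⟨0, ∅, fun x hx => absurd hx (Finset.notMem_empty x), rfl⟩
  obtain ⟨S, hS, hSc⟩ := Nat.sSup_mem hne hb
  exact ⟨S, fun x hx y hy z hz h => hS x (Finset.mem_coe.1 hx) y (Finset.mem_coe.1 hy) z
    (Finset.mem_coe.1 hz) h, hSc⟩

theorem f_le_D (G : Type u) [AddCommGroup G] [Finite G] : f G ≤ D G := by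
  obtain ⟨A, hA, hAc⟩ := (f_spec G).1
  rw [← hAc, D_eq]
  exact DG.card_le_D (fun x hx y hy z hz _ _ _ => hA x hx y hy z hz)

theorem f_shape (T : Type u) [AddCommGroup T] [Finite T] {n : ℕ} (k : Fin n → ℕ)
    (h : Shape T k) : f T = val k := by
  obtain ⟨h1, h2, ⟨e⟩⟩ := h
  obtain ⟨hu, A, hA, hAc⟩ := N9.exact_val T k h1 h2 e
  apply le_antisymm
  · obtain ⟨B, hB, hBc⟩ := (f_spec T).1
    rw [← hBc]
    exact hu B hB
  · change N9.val k ≤ f T
    rw [← hAc]
    exact (f_spec T).2 A hA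

theorem D_shape (T : Type u) [AddCommGroup T] [Finite T] {n : ℕ} (k : Fin n → ℕ)
    (h : Shape T k) : val k + 2 ^ big k * r3 (Fin (n - big k) → ZMod 3) ≤ D T := by
  obtain ⟨h1, h2, ⟨e⟩⟩ := h
  obtain ⟨S, hS, hSc⟩ := r3_attained (Fin (n - big k) → ZMod 3)
  have hb : big k ≤ n := by
    unfold big
    calc _ ≤ (Finset.univ : Finset (Fin n)).card := Finset.card_filter_le _ _
      _ = n := by rw [Finset.card_univ, Fintype.card_fin]
  obtain ⟨C, hC, hCc⟩ := N9.low_adm n k h1 h2 (n - big k)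
    (by change n - big k + big k = n; omega) S hS
  obtain ⟨C', hC', hCc'⟩ := N9.Adm_transport e C hC
  have h3 : C'.card ≤ D T := by
    rw [D_eq]
    exact DG.card_le_D hC'
  rw [hCc', hCc, hSc] at h3
  exact h3

theorem card_shape (T : Type u) [AddCommGroup T] [Finite T] {n : ℕ} (k : Fin n → ℕ)
    (h : Shape T k) : ∃ a, Nat.card T = 3 ^ a := by
  obtain ⟨_, _, ⟨e⟩⟩ := h
  refine ⟨∑ i, k i, ?_⟩
  rw [Nat.card_congr e.toEquiv, Nat.card_pi, ← Finset.prod_pow_eq_pow_sum]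
  exact Finset.prod_congr rfl (fun i _ => Nat.card_zmod _)

/-- **Main theorem.** -/
theorem result :
    (∀ (T : Type u) [AddCommGroup T] [Finite T], (∃ a, Nat.card T = 3 ^ a) →
      ∃ (n : ℕ) (k : Fin n → ℕ), Shape T k) ∧
    (∀ (T : Type u) [AddCommGroup T] [Finite T] (n : ℕ) (k : Fin n → ℕ), Shape T k →
      f T = val k) ∧
    (∀ (G : Type u) [AddCommGroup G] [Finite G], 2 ∣ Nat.card G →
      |(D G : ℝ) - Nat.card G / 2| ≤ 1) ∧
    (∀ (G : Type u) [AddCommGroup G] [Finite G] (p : ℕ), p.Prime → p % 3 = 2 → p ≠ 2 →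
      p ∣ Nat.card G → (∀ q : ℕ, q.Prime → q % 3 = 2 → q ∣ Nat.card G → p ≤ q) →
      |(D G : ℝ) - (p + 1) * Nat.card G / (3 * p)| ≤ 2) ∧
    (∀ (G : Type u) [AddCommGroup G] [Finite G],
      (∀ p : ℕ, p.Prime → p ∣ Nat.card G → p % 3 = 1) →
      |(D G : ℝ) - Nat.card G / 3| ≤ 2) ∧
    (∀ (G : Type u) [AddCommGroup G] [Finite G], 3 ∣ Nat.card G →
      (∀ p : ℕ, p.Prime → p ∣ Nat.card G → p = 3 ∨ p % 3 = 1) → ∀ T : AddSubgroup G,
      ¬ 3 ∣ T.index → ∀ (n : ℕ) (k : Fin n → ℕ), Shape T k →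
        3 * D G + Nat.card T = Nat.card G + 3 * D T) ∧
    (∃ C : ℕ, ∀ (T : Type u) [AddCommGroup T] [Finite T] (n : ℕ) (k : Fin n → ℕ), Shape T k →
      f T + 2 ^ big k * r3 (Fin (n - big k) → ZMod 3) ≤ D T ∧ D T ≤ f T + r3 T ∧
      (big k = 0 → D T = r3 (Fin n → ZMod 3)) ∧
      ∀ s K : ℕ, big k = s + 1 → (∀ i, k i ≤ K + 1) →
        D T + 6 * K ≤ f T + 2 ^ s * r3 (Fin (n - s) → ZMod 3) + 2 ^ (s + 1) * (6 * K + C)) ∧
    (∀ (T : Type u) [AddCommGroup T] [Finite T] (n : ℕ) (k : Fin n → ℕ), Shape T k →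
      3 ^ n * r3 T ≤ Nat.card T * r3 (Fin n → ZMod 3)) ∧
    (∀ ε : ℝ, 0 < ε → ∃ N : ℕ, ∀ (T : Type u) [AddCommGroup T] [Finite T], N ≤ Nat.card T →
      (r3 T : ℝ) ≤ ε * Nat.card T) := by
  refine ⟨?_, ?_, ?_, ?_, ?_, ?_, ?_, ?_, ?_⟩
  · intro T _ _ ha
    obtain ⟨n, k, h⟩ := N9.struct3 (Nat.card T) T rfl ha
    exact ⟨n, k, h⟩
  · intro T _ _ n k h
    exact f_shape T k h
  · intro G _ _ h2
    obtain ⟨h3, h4⟩ := DG.top_even G h2
    rw [D_eq]
    by_cases hE : DG.Exc G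
    · have h5 : ((2 * DG.D G : ℕ) : ℝ) = ((Nat.card G + 2 : ℕ) : ℝ) := by rw [h3 hE]
      push_cast at h5
      rw [abs_le]
      constructor <;> linarith
    · have h5 : ((2 * DG.D G : ℕ) : ℝ) = ((Nat.card G : ℕ) : ℝ) := by rw [h4 hE]
      push_cast at h5
      rw [abs_le]
      constructor <;> linarith
  · intro G _ _ p hp hp3 hp2 hpG hmin
    obtain ⟨h3, h4, h5⟩ := DG.top_II G p hp hp3 hp2 hpG hmin
    rw [D_eq]
    have hp0 : (0 : ℝ) < p := by exact_mod_cast hp.pos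
    by_cases h6 : Nat.card G = p
    · have h7 : ((3 * DG.D G : ℕ) : ℝ) = ((p + 7 : ℕ) : ℝ) := by rw [h3 h6]
      push_cast at h7
      have h8 : ((p : ℝ) + 1) * Nat.card G / (3 * p) = (p + 1) / 3 := by
        rw [h6]; field_simp
      rw [h8, abs_le]
      constructor <;> linarith
    · by_cases h7 : Nat.card G = 15
      · have h8 := h4 h7
        have h9 : p = 5 := by
          have h10 : p ∣ 15 := by rw [← h7]; exact hpG
          have h11 : p ≤ 15 := Nat.le_of_dvd (by norm_num) h10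
          interval_cases p <;> first | rfl | (exfalso; revert h10; decide) |
            (exfalso; revert hp3; decide)
        rw [h8, h7, h9, abs_le]
        push_cast
        constructor <;> norm_num
      · have h8 : ((3 * p * DG.D G : ℕ) : ℝ) = (((p + 1) * Nat.card G : ℕ) : ℝ) := by
          rw [h5 h6 h7]
        push_cast at h8
        have h9 : (DG.D G : ℝ) - ((p : ℝ) + 1) * Nat.card G / (3 * p) = 0 := by
          rw [← h8]; field_simp; ring
        rw [h9, abs_zero]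
        norm_num
  · intro G _ _ hp
    rw [D_eq]
    rcases Nat.lt_or_ge 1 (Nat.card G) with h1 | h1
    · have h4 := DG.top_1 G h1 hp
      have h5 : ((3 * DG.D G : ℕ) : ℝ) = ((Nat.card G + 5 : ℕ) : ℝ) := by rw [h4]
      push_cast at h5
      rw [abs_le]
      constructor <;> linarith
    · have h4 : Nat.card G = 1 := le_antisymm h1 Nat.card_pos
      obtain ⟨A, hA, hAc⟩ := DG.exists_D G
      have h8 : DG.D G ≤ Nat.card G := by
        classical
        have _ := Fintype.ofFinite G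
        rw [← hAc, Nat.card_eq_fintype_card]
        exact Finset.card_le_univ A
      rw [h4] at h8 ⊢
      have h9 : (DG.D G : ℝ) ≤ 1 := by exact_mod_cast h8
      have h10 : (0 : ℝ) ≤ (DG.D G : ℝ) := Nat.cast_nonneg _
      rw [abs_le]
      push_cast
      constructor <;> linarith
  · intro G _ _ h3 hp T hT' n k hk
    obtain ⟨a, ha⟩ := card_shape T k hk
    rw [D_eq, D_eq]
    exact DG.top_R G h3 hp T ha hT'
  · obtain ⟨C, hC⟩ := N9.upper_adm.{u}
    refine ⟨C, ?_⟩
    intro T _ _ n k hk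
    have hfD := D_shape T k hk
    have hfv := f_shape T k hk
    obtain ⟨a, ha⟩ := card_shape T k hk
    obtain ⟨A, hA, hAc⟩ := DG.exists_D T
    have hR : ∀ m, ∀ W : Finset (Fin m → ZMod 3), ThreeAPFree (W : Set (Fin m → ZMod 3)) →
        W.card ≤ r3 (Fin m → ZMod 3) := fun m W hW => r3_spec _ W hW
    obtain ⟨hu0, hu1⟩ := hC (fun m => r3 (Fin m → ZMod 3)) hR T n k hk.1 hk.2.1 hk.2.2 A hA
    rw [hfv]
    refine ⟨hfD, ?_, ?_, ?_⟩
    · have hodd : Nat.card T % 2 = 1 := by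
        rw [ha]
        exact Nat.odd_iff.1 (Odd.pow (by decide))
      obtain ⟨A', F, hA', hF, hle⟩ := N9.removal T hodd A hA
      have h8 := (f_spec T).2 A' hA'
      have h9 := r3_spec T F hF
      rw [D_eq, ← hAc]
      omega
    · intro hb
      apply le_antisymm
      · rw [D_eq, ← hAc]
        exact hu0 hb
      · rw [hb, Nat.sub_zero, pow_zero, one_mul] at hfD
        exact (Nat.le_add_left _ _).trans hfD
    · intro s K hs hK
      rw [D_eq, ← hAc]
      exact hu1 s K hs hK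
  · intro T _ _ n k hk
    obtain ⟨_, h1, ⟨e⟩⟩ := hk
    obtain ⟨S, hS, hSc⟩ := r3_attained T
    rw [← hSc]
    exact N9.ap_shape k h1 e (fun W hW => r3_spec _ W hW) S hS
  · intro ε hε
    obtain ⟨N, hN⟩ := N9.roth_small.{u} ε hε
    refine ⟨N, ?_⟩
    intro T _ _ hT
    obtain ⟨S, hS, hSc⟩ := r3_attained T
    rw [← hSc]
    exact hN T hT S hS

end Pool.Agent.Results.MP_a8fd3e_co.AsymptoticAllGroups
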