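import Pool.Agent.DG.Top
import Pool.Agent.DG.Low3
import Pool.Agent.DG.Rank2

set_option autoImplicit false

/-!
# Distinct zero-sum triples: `D(G)` for every finite abelian group, up to `3`-groups

`D G` is the largest size of a subset of the finite abelian group `G` with no three pairwise
distinct elements of sum `0`.
-/

namespace Pool.Agent.Results.MP_a8fd3e_co.ExactUpToThreeGroups
open Finset

universe u

/-- No three pairwise distinct elements of `H` have sum `0`. -/
def Admissible {G : Type u} [AddCommGroup G] (H : Finset G) : Prop :=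
  ∀ x ∈ H, ∀ y ∈ H, ∀ z ∈ H, x ≠ y → x ≠ z → y ≠ z → x + y + z ≠ 0

/-- The largest size of an admissible subset of `G`. -/
noncomputable def D (G : Type u) [AddCommGroup G] : ℕ :=
  sSup {k | ∃ H : Finset G, Admissible H ∧ H.card = k}

/-- The exceptional groups of even order: `G` has an elementary abelian `2`-subgroup of index
at most `2`, or `G` is cyclic of order `6`, `8` or `10`. -/
def Exceptional (G : Type u) [AddCommGroup G] : Prop :=
  (∃ E : AddSubgroup G, (E.index = 1 ∨ E.index = 2) ∧ ∀ x ∈ E, x + x = 0) ∨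
    (IsAddCyclic G ∧ (Nat.card G = 6 ∨ Nat.card G = 8 ∨ Nat.card G = 10))

theorem D_eq (G : Type u) [AddCommGroup G] : D G = DG.D G := rfl

theorem exc_iff (G : Type u) [AddCommGroup G] : Exceptional G ↔ DG.Exc G := by
  unfold Exceptional DG.Exc
  constructor
  · rintro (⟨E, hE, h⟩ | h)
    · exact Or.inl ⟨E, by omega, by omega, h⟩
    · exact Or.inr h
  · rintro (⟨E, h1, h2, h⟩ | h)
    · exact Or.inl ⟨E, by omega, h⟩
    · exact Or.inr h

theorem tor_zmod (n : ℕ) [NeZero n] :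
    Nat.card {x : ZMod n // x + x + x = 0} ≤ 3 := by
  classical
  have h := IsAddCyclic.card_nsmul_eq_zero_le (α := ZMod n) (n := 3) (by norm_num)
  rw [Nat.card_eq_fintype_card, Fintype.card_subtype]
  refine le_trans (le_of_eq ?_) h
  congr 1
  ext x
  rw [mem_filter, mem_filter, succ_nsmul, two_nsmul]

theorem tor_congr {T : Type u} [AddCommGroup T] {S : Type} [AddCommGroup S] (e : T ≃+ S) :
    Nat.card (DG.tor3 T) = Nat.card {x : S // x + x + x = 0} := by
  refine Nat.card_congr ⟨fun x => ⟨e x, ?_⟩, fun y => ⟨e.symm y, ?_⟩, ?_, ?_⟩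
  · rw [← map_add, ← map_add, DG.mem_tor3.1 x.2, map_zero]
  · rw [DG.mem_tor3, ← map_add, ← map_add, y.2, map_zero]
  · intro x
    apply Subtype.ext
    simp
  · intro y
    apply Subtype.ext
    simp

theorem tor_prod (m n : ℕ) [NeZero m] [NeZero n] :
    Nat.card {x : ZMod m × ZMod n // x + x + x = 0} ≤ 9 := by
  have h : Nat.card {x : ZMod m × ZMod n // x + x + x = 0} =
      Nat.card ({x : ZMod m // x + x + x = 0} × {x : ZMod n // x + x + x = 0}) := by
    refine Nat.card_congr ⟨fun x => (⟨x.1.1, ?_⟩, ⟨x.1.2, ?_⟩), fun y => ⟨(y.1.1, y.2.1), ?_⟩,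
      ?_, ?_⟩
    · exact congrArg Prod.fst x.2
    · exact congrArg Prod.snd x.2
    · exact Prod.ext y.1.2 y.2.2
    · intro x
      rfl
    · intro y
      rfl
  rw [h, Nat.card_prod]
  exact Nat.mul_le_mul (tor_zmod m) (tor_zmod n)

/-- The value for the three families of `3`-groups. -/
theorem fam (T : Type u) [AddCommGroup T] [Finite T] {b : ℕ} (hb : 2 ≤ b)
    (h : Nonempty (T ≃+ ZMod (3 ^ b)) ∨ Nonempty (T ≃+ ZMod 3 × ZMod (3 ^ b)) ∨
      Nonempty (T ≃+ ZMod 9 × ZMod (3 ^ b))) :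
    3 * DG.D T = Nat.card T + 9 := by
  have h1 := DG.low3 T hb h
  have _ : NeZero (3 ^ b) := ⟨by positivity⟩
  have h2 : ∃ n, 2 ≤ n ∧ Nat.card T = 3 ^ n ∧ Nat.card (DG.tor3 T) ≤ 9 := by
    rcases h with ⟨⟨e⟩⟩ | ⟨⟨e⟩⟩ | ⟨⟨e⟩⟩
    · refine ⟨b, hb, ?_, ?_⟩
      · rw [Nat.card_congr e.toEquiv, Nat.card_zmod]
      · rw [tor_congr e]
        exact (tor_zmod _).trans (by norm_num)
    · refine ⟨b + 1, by omega, ?_, ?_⟩
      · rw [Nat.card_congr e.toEquiv, Nat.card_prod, Nat.card_zmod, Nat.card_zmod]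
        ring
      · rw [tor_congr e]
        exact tor_prod _ _
    · refine ⟨b + 2, by omega, ?_, ?_⟩
      · rw [Nat.card_congr e.toEquiv, Nat.card_prod, Nat.card_zmod, Nat.card_zmod]
        ring
      · rw [tor_congr e]
        exact tor_prod _ _
  obtain ⟨n, hn, hT, ht⟩ := h2
  have h3 := DG.rank2_up n T hn hT ht
  omega

/-- **Theorem.** The value of `D G` for every finite abelian group `G`, up to `3`-groups. -/
theorem result (G : Type u) [AddCommGroup G] [Finite G] :
    -- (1) even order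
    (2 ∣ Nat.card G → (Exceptional G → 2 * D G = Nat.card G + 2) ∧
      (¬ Exceptional G → 2 * D G = Nat.card G)) ∧
    -- (2) odd order, `p` the least among the prime factors `≡ 2 (mod 3)`
    (¬ 2 ∣ Nat.card G → ∀ p : ℕ, p.Prime → p % 3 = 2 → p ∣ Nat.card G →
      (∀ r : ℕ, r.Prime → r % 3 = 2 → r ∣ Nat.card G → p ≤ r) →
      (Nat.card G = p → 3 * D G = p + 7) ∧ (Nat.card G = 15 → D G = 8) ∧
      (Nat.card G ≠ p → Nat.card G ≠ 15 → 3 * p * D G = (p + 1) * Nat.card G)) ∧
    -- (3) all prime factors `≡ 1 (mod 3)`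
    (1 < Nat.card G → (∀ p : ℕ, p.Prime → p ∣ Nat.card G → p % 3 = 1) →
      3 * D G = Nat.card G + 5) ∧
    -- (4) the other groups; `T` is the Sylow `3`-subgroup
    (3 ∣ Nat.card G → (∀ p : ℕ, p.Prime → p ∣ Nat.card G → p = 3 ∨ p % 3 = 1) →
      ∀ T : AddSubgroup G, (∃ a : ℕ, Nat.card T = 3 ^ a) → ¬ 3 ∣ T.index →
        3 * D G + Nat.card T = Nat.card G + 3 * D T ∧
        -- (5) explicit values
        ((Nat.card T = 3 ∨ (Nat.card T = 9 ∧ ¬ IsAddCyclic T)) → 3 * D G = Nat.card G + 3) ∧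
        (∀ b : ℕ, 2 ≤ b → (Nonempty (T ≃+ ZMod (3 ^ b)) ∨
          Nonempty (T ≃+ ZMod 3 × ZMod (3 ^ b)) ∨ Nonempty (T ≃+ ZMod 9 × ZMod (3 ^ b))) →
          3 * D G = Nat.card G + 9) ∧
        (9 ≤ Nat.card T → Nat.card {x : T // x + x + x = 0} ≤ 9 →
          3 * D G ≤ Nat.card G + 9)) ∧
    -- (6) the remaining cyclic groups
    (IsAddCyclic G → 3 ∣ Nat.card G →
      (∀ p : ℕ, p.Prime → p ∣ Nat.card G → p = 3 ∨ p % 3 = 1) →
      3 * D G = Nat.card G + if 9 ∣ Nat.card G then 9 else 3) := by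
  -- the part about `T`, used twice
  have hT4 : 3 ∣ Nat.card G → (∀ p : ℕ, p.Prime → p ∣ Nat.card G → p = 3 ∨ p % 3 = 1) →
      ∀ T : AddSubgroup G, (∃ a : ℕ, Nat.card T = 3 ^ a) → ¬ 3 ∣ T.index →
        3 * D G + Nat.card T = Nat.card G + 3 * D T ∧
        ((Nat.card T = 3 ∨ (Nat.card T = 9 ∧ ¬ IsAddCyclic T)) → 3 * D G = Nat.card G + 3) ∧
        (∀ b : ℕ, 2 ≤ b → (Nonempty (T ≃+ ZMod (3 ^ b)) ∨
          Nonempty (T ≃+ ZMod 3 × ZMod (3 ^ b)) ∨ Nonempty (T ≃+ ZMod 9 × ZMod (3 ^ b))) →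
          3 * D G = Nat.card G + 9) ∧
        (9 ≤ Nat.card T → Nat.card {x : T // x + x + x = 0} ≤ 9 →
          3 * D G ≤ Nat.card G + 9) := by
    intro h3 hp T hTa hT'
    obtain ⟨a, hT⟩ := hTa
    have h4 : 3 * D G + Nat.card T = Nat.card G + 3 * D T := DG.top_R G h3 hp T hT hT'
    refine ⟨h4, ?_, ?_, ?_⟩
    · rintro (h | ⟨h, hc⟩)
      · have h5 : D T = 2 := DG.D_three T h
        omega
      · have h5 : D T = 4 := DG.D_nine T h hc
        omega
    · intro b hb hfam
      have h5 : 3 * D T = Nat.card T + 9 := fam T hb hfam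
      omega
    · intro h9 ht
      have ha : 2 ≤ a := by
        by_contra hcon
        have h6 : 3 ^ a ≤ 3 ^ 1 := Nat.pow_le_pow_right (by norm_num) (by omega)
        omega
      have ht' : Nat.card (DG.tor3 T) ≤ 9 := by
        refine le_trans (le_of_eq ?_) ht
        exact Nat.card_congr (Equiv.subtypeEquivRight (fun x => DG.mem_tor3))
      have h5 : 3 * D T ≤ Nat.card T + 9 := DG.rank2_up a T ha hT ht'
      omega
  refine ⟨?_, ?_, ?_, hT4, ?_⟩
  · intro h2
    have h := DG.top_even G h2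
    rw [exc_iff]
    exact h
  · intro h2 p hp hp3 hpn hmin
    exact DG.top_II G p hp hp3 (by rintro rfl; exact h2 hpn) hpn hmin
  · intro h1 hp
    exact DG.top_1 G h1 hp
  · intro hcyc h3 hp
    -- a Sylow `3`-subgroup
    have _ : Fact (Nat.Prime 3) := ⟨Nat.prime_three⟩
    obtain ⟨g, hg⟩ := hcyc.exists_generator
    have hn0 : Nat.card G ≠ 0 := Nat.card_pos.ne'
    obtain ⟨a, m, hm, hn⟩ := Nat.exists_eq_pow_mul_and_not_dvd hn0 3 (by norm_num)
    have ha : 1 ≤ a := by
      by_contra hcon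
      have : a = 0 := by omega
      rw [this, pow_zero, one_mul] at hn
      rw [hn] at h3
      exact hm h3
    have hm0 : m ≠ 0 := by
      rintro rfl
      simp at hm
    have hord : addOrderOf g = 3 ^ a * m := by
      rw [addOrderOf_eq_card_of_forall_mem_zmultiples hg, hn]
    set T := AddSubgroup.zmultiples (m • g) with hTdef
    have hTc : Nat.card T = 3 ^ a := by
      rw [hTdef, Nat.card_zmultiples, addOrderOf_nsmul' g hm0, hord,
        Nat.gcd_eq_right (Dvd.intro_left _ rfl)]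
      exact Nat.mul_div_cancel _ (Nat.pos_of_ne_zero hm0)
    have hTi : T.index = m := by
      have h5 := AddSubgroup.card_mul_index T
      rw [hTc, hn] at h5
      exact Nat.eq_of_mul_eq_mul_left (by positivity) h5
    obtain ⟨h4, h5, h6, -⟩ := hT4 h3 hp T ⟨a, hTc⟩ (by rw [hTi]; exact hm)
    have h9iff : 9 ∣ Nat.card G ↔ 2 ≤ a := by
      constructor
      · intro h9
        by_contra hcon
        have ha1 : a = 1 := by omega
        rw [hn, ha1, pow_one] at h9
        apply hm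
        obtain ⟨w, hw⟩ := h9
        exact ⟨w, by omega⟩
      · intro h2
        rw [hn]
        refine Dvd.dvd.mul_right ?_ m
        calc 9 = 3 ^ 2 := by norm_num
          _ ∣ 3 ^ a := pow_dvd_pow 3 h2
    by_cases h2 : 2 ≤ a
    · rw [if_pos (h9iff.2 h2)]
      apply h6 a h2
      left
      have hTcyc : IsAddCyclic T := inferInstance
      exact ⟨((ZMod.ringEquivCongr hTc.symm).toAddEquiv.trans (zmodAddCyclicAddEquiv hTcyc)).symm⟩
    · rw [if_neg (fun h => h2 (h9iff.1 h))]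
      apply h5
      left
      have : a = 1 := by omega
      rw [hTc, this, pow_one]

end Pool.Agent.Results.MP_a8fd3e_co.ExactUpToThreeGroups
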