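import Mathlib
import Pool.Agent.Kneser.Basic

set_option autoImplicit false

/-!
# Distinct zero-sum triples: the value of `D(G)` for large odd `G`

Let `p ≡ 2 (mod 3)` be an odd prime.  For all sufficiently large finite abelian groups `G` whose
least prime divisor `≡ 2 (mod 3)` is `p`, we have `D(G) = (p+1)|G|/(3p)`.
-/

namespace Pool.Agent.Results.MP_a8fd3e_co.OddLeastPrime
open Finset
open scoped Pointwise

universe u

/-- No three pairwise distinct elements of `H` have sum `0`. -/
def Admissible {G : Type u} [AddCommGroup G] (H : Finset G) : Prop :=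
  ∀ x ∈ H, ∀ y ∈ H, ∀ z ∈ H, x ≠ y → x ≠ z → y ≠ z → x + y + z ≠ 0

/-- The largest size of an admissible subset of `G`. -/
noncomputable def D (G : Type u) [AddCommGroup G] : ℕ :=
  sSup {k | ∃ H : Finset G, Admissible H ∧ H.card = k}

section Upper
variable {G : Type u} [AddCommGroup G] [Fintype G] [DecidableEq G]

set_option linter.unusedSectionVars false

theorem two_inj (hodd : Odd (Fintype.card G)) {x y : G} (h : x + x = y + y) : x = y := by
  have h1 : (2 : ℕ) • (x - y) = 0 := by
    rw [two_nsmul, sub_add_sub_comm, h, sub_self]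
  have h2 : (Fintype.card G) • (x - y) = 0 := card_nsmul_eq_zero
  obtain ⟨k, hk⟩ := hodd
  rw [hk, add_nsmul, mul_nsmul, h1, nsmul_zero, zero_add, one_nsmul] at h2
  exact sub_eq_zero.1 h2

/-- The elements `x ≠ 0` of `A` with `-2x ∈ A`. -/
def EE (A : Finset G) : Finset G := A.filter (fun x => x ≠ 0 ∧ -(x + x) ∈ A)

/-- By Roth's theorem, few elements `x` of an admissible set have `-2x` in the set. -/
theorem card_EE_le (hodd : Odd (Fintype.card G)) (A : Finset G) (hA : Admissible A) (ε : ℝ)
    (hε : 0 < ε) (hN : cornersTheoremBound ε ≤ Fintype.card G) :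
    ((EE A).card : ℝ) ≤ 3 * (ε * Fintype.card G) := by
  classical
  -- a maximal subset of `E` containing no `x ≠ -2x` together
  let fam : Finset (Finset G) := (EE A).powerset.filter
    (fun F => ∀ x ∈ F, -(x + x) ∈ F → -(x + x) = x)
  have hfam : fam.Nonempty := ⟨∅, by simp [fam]⟩
  obtain ⟨F, hF, hmax⟩ := Finset.exists_max_image fam Finset.card hfam
  rw [Finset.mem_filter, Finset.mem_powerset] at hF
  obtain ⟨hFE, hFind⟩ := hF
  have hsub : EE A ⊆ F ∪ (F.image (fun x => -(x + x)) ∪ (EE A).filter (fun x => -(x + x) ∈ F)) := by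
    intro x hx
    by_contra hcon
    rw [Finset.mem_union, Finset.mem_union, not_or, not_or] at hcon
    obtain ⟨h1, h2, h3⟩ := hcon
    have hins : insert x F ∈ fam := by
      rw [Finset.mem_filter, Finset.mem_powerset]
      refine ⟨Finset.insert_subset hx hFE, ?_⟩
      intro y hy hy'
      rw [Finset.mem_insert] at hy hy'
      rcases hy with rfl | hy
      · rcases hy' with hy' | hy'
        · exact hy'
        · exact absurd (Finset.mem_filter.2 ⟨hx, hy'⟩) h3
      · rcases hy' with hy' | hy'
        · exact absurd (Finset.mem_image.2 ⟨y, hy, hy'⟩) h2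
        · exact hFind y hy hy'
    have := hmax _ hins
    rw [Finset.card_insert_of_notMem h1] at this
    omega
  have hcard : (EE A).card ≤ 3 * F.card := by
    have h1 : (F.image (fun x => -(x + x))).card ≤ F.card := Finset.card_image_le
    have h2 : ((EE A).filter (fun x => -(x + x) ∈ F)).card ≤ F.card := by
      apply Finset.card_le_card_of_injOn (fun x => -(x + x))
      · intro x hx
        exact (Finset.mem_filter.1 hx).2
      · intro x _ y _ h
        exact two_inj hodd (neg_injective h)
    have h3 := Finset.card_le_card hsub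
    have h4 := Finset.card_union_le F
      (F.image (fun x => -(x + x)) ∪ (EE A).filter (fun x => -(x + x) ∈ F))
    have h5 := Finset.card_union_le (F.image (fun x => -(x + x)))
      ((EE A).filter (fun x => -(x + x) ∈ F))
    omega
  have hroth : (F.card : ℝ) < ε * Fintype.card G := by
    by_contra hcon
    rw [not_lt] at hcon
    have := roth_3ap_theorem ε hε hN F hcon
    apply this
    intro a ha b hb c hc habc
    by_contra hne
    have hac : a ≠ c := by
      rintro rfl
      exact hne (two_inj hodd habc)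
    have haE := Finset.mem_filter.1 (hFE ha)
    have hbE := Finset.mem_filter.1 (hFE hb)
    have hcE := Finset.mem_filter.1 (hFE hc)
    have hbc : b ≠ c := by
      rintro rfl
      exact hne (add_right_cancel habc)
    have h1 : a ≠ -(b + b) := by
      intro h
      have h' : -(b + b) ∈ F := by rw [← h]; exact ha
      have := hFind b hb h'
      exact hne (h.trans this)
    have h2 : c ≠ -(b + b) := by
      intro h
      have h' : -(b + b) ∈ F := by rw [← h]; exact hc
      have := hFind b hb h'
      exact hbc (h.trans this).symm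
    apply hA a haE.1 c hcE.1 (-(b + b)) hbE.2.2 hac h1 h2
    rw [habc, add_neg_cancel]
  have : ((EE A).card : ℝ) ≤ 3 * F.card := by exact_mod_cast hcard
  linarith

open Pool.Agent.Kneser in
/-- The subgroup with underlying set `S`. -/
def toSub (S : Finset G) (hS : IsSub S) : AddSubgroup G where
  carrier := {x | x ∈ S}
  zero_mem' := hS.zero
  add_mem' := fun ha hb => hS.add ha hb
  neg_mem' := fun ha => hS.neg ha

open Pool.Agent.Kneser in
theorem card_toSub (S : Finset G) (hS : IsSub S) : Nat.card (toSub S hS) = S.card := by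
  have : Nat.card (toSub S hS) = Nat.card S := rfl
  rw [this, Nat.card_eq_fintype_card, Fintype.card_coe]

open Pool.Agent.Kneser in
/-- A union of cosets of `S` has cardinality divisible by `|S|`. -/
theorem dvd_card_of_stable (S : Finset G) (hS : IsSub S) (k : ℕ) :
    ∀ W : Finset G, W.card = k → (∀ w ∈ W, ∀ s ∈ S, s + w ∈ W) → S.card ∣ W.card := by
  induction k using Nat.strong_induction_on with
  | _ k ih =>
    intro W hk hW
    rcases Finset.eq_empty_or_nonempty W with h | ⟨w, hw⟩
    · rw [h]; simp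
    · set c := S.image (fun s => s + w) with hc
      have hcW : c ⊆ W := by
        intro x hx
        rw [hc, Finset.mem_image] at hx
        obtain ⟨s, hs, rfl⟩ := hx
        exact hW w hw s hs
      have hcc : c.card = S.card := Finset.card_image_of_injective _ (add_left_injective w)
      have hSpos : 0 < S.card := Finset.card_pos.2 ⟨0, hS.zero⟩
      have hle := Finset.card_le_card hcW
      have h1 : (W \ c).card = W.card - c.card := Finset.card_sdiff_of_subset hcW
      have h2 : S.card ∣ (W \ c).card := by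
        apply ih (W \ c).card (by omega) _ rfl
        intro x hx s hs
        rw [Finset.mem_sdiff] at hx ⊢
        refine ⟨hW x hx.1 s hs, fun h => hx.2 ?_⟩
        rw [hc, Finset.mem_image] at h ⊢
        obtain ⟨t, ht, hts⟩ := h
        refine ⟨t - s, hS.sub _ ht _ hs, ?_⟩
        have : t + w = s + x := hts
        have h3 : t - s + w = t + w - s := by abel
        rw [h3, this]; abel
      have h3 : W.card = (W \ c).card + S.card := by omega
      rw [h3]
      exact Dvd.dvd.add h2 (dvd_refl _)

theorem mod_aux (u v : ℕ) (hu : u < 3) (hv : v < 3) (h : u ≠ 2) (h' : u * v % 3 = 2) :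
    u = 1 ∧ v = 2 := by
  interval_cases u <;> interval_cases v <;> simp at h h' ⊢

/-- Arithmetic used below. -/
theorem num1 {p n k e a' w s : ℕ} (hp : 1 ≤ p) (hbig : (p + 1) * n ≤ 3 * p * k)
    (hE : 6 * p * (p + 1) * e ≤ n) (hn : 6 * p * (p + 1) < n) (ha : k ≤ a' + e + 1)
    (hw : a' ≤ w) (h3 : 3 * w ≤ n + s) : n < (p + 1) * s ∧ n < 3 * w := by
  have h4 : 3 * p * k ≤ 3 * p * (w + e + 1) := Nat.mul_le_mul_left _ (by omega)
  have h5 : (p + 1) * n ≤ p * (3 * w) + (3 * p * e + 3 * p) := by
    calc (p + 1) * n ≤ 3 * p * (w + e + 1) := hbig.trans h4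
      _ = _ := by ring
  have h6 : 2 * (p + 1) * (3 * p * e + 3 * p) < 2 * n := by
    calc 2 * (p + 1) * (3 * p * e + 3 * p) = 6 * p * (p + 1) * e + 6 * p * (p + 1) := by ring
      _ < 2 * n := by omega
  constructor
  · have h7 : p * (3 * w) ≤ p * (n + s) := Nat.mul_le_mul_left _ h3
    have h8 : n ≤ p * s + (3 * p * e + 3 * p) := by
      have : p * n + n ≤ p * n + (p * s + (3 * p * e + 3 * p)) := by
        calc p * n + n = (p + 1) * n := by ring
          _ ≤ p * (n + s) + (3 * p * e + 3 * p) := by omega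
          _ = _ := by ring
      omega
    have h9 : 2 * (p + 1) * n ≤ 2 * (p + 1) * (p * s + (3 * p * e + 3 * p)) :=
      Nat.mul_le_mul_left _ h8
    have h10 : 2 * p * n < 2 * p * ((p + 1) * s) := by
      have e1 : 2 * (p + 1) * n = 2 * p * n + 2 * n := by ring
      have e2 : 2 * (p + 1) * (p * s + (3 * p * e + 3 * p)) =
        2 * p * ((p + 1) * s) + 2 * (p + 1) * (3 * p * e + 3 * p) := by ring
      omega
    exact Nat.lt_of_mul_lt_mul_left h10
  · by_contra hcon
    rw [not_lt] at hcon
    have h7 : p * (3 * w) ≤ p * n := Nat.mul_le_mul_left _ hcon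
    have h8 : n ≤ 3 * p * e + 3 * p := by
      have : (p + 1) * n = p * n + n := by ring
      omega
    have h9 : 2 * (p + 1) * n ≤ 2 * (p + 1) * (3 * p * e + 3 * p) := Nat.mul_le_mul_left _ h8
    have h10 : 2 * n ≤ 2 * (p + 1) * n := Nat.mul_le_mul_right _ (by omega)
    omega

/-- Arithmetic used below. -/
theorem num2 {m e s : ℕ} (hm : 5 ≤ m) (hn2 : 6 * m * (m + 1) < s * m)
    (hE' : 6 * m * (m + 1) * e ≤ s * m) : 2 * (e + 1) + 1 < s := by
  have h4 : 6 * (m + 1) < s := by
    have : m * (6 * (m + 1)) < m * s := by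
      calc m * (6 * (m + 1)) = 6 * m * (m + 1) := by ring
        _ < s * m := hn2
        _ = m * s := by ring
    exact Nat.lt_of_mul_lt_mul_left this
  have h5 : 6 * (m + 1) * e ≤ s := by
    have : m * (6 * (m + 1) * e) ≤ m * s := by
      calc m * (6 * (m + 1) * e) = 6 * m * (m + 1) * e := by ring
        _ ≤ s * m := hE'
        _ = m * s := by ring
    exact Nat.le_of_mul_le_mul_left this (by omega)
  have h7 : 36 * e ≤ 6 * (m + 1) * e := Nat.mul_le_mul_right _ (by omega)
  have h8 : 36 ≤ 6 * (m + 1) := by omega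
  omega

/-- A natural number `≡ 2 (mod 3)` has a prime factor `≡ 2 (mod 3)`. -/
theorem exists_prime_factor (m : ℕ) (hm : m % 3 = 2) : ∃ q : ℕ, q.Prime ∧ q % 3 = 2 ∧ q ∣ m := by
  induction m using Nat.strong_induction_on with
  | _ m ih =>
    have hm1 : m ≠ 1 := by rintro rfl; norm_num at hm
    have hq := Nat.minFac_prime hm1
    obtain ⟨m', hm'⟩ := Nat.minFac_dvd m
    by_cases h2 : m.minFac % 3 = 2
    · exact ⟨m.minFac, hq, h2, Nat.minFac_dvd m⟩
    · have h3 : (m.minFac * m') % 3 = 2 := by rw [← hm']; exact hm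
      rw [Nat.mul_mod] at h3
      have h4 : m.minFac % 3 = 1 ∧ m' % 3 = 2 := mod_aux _ _ (Nat.mod_lt _ (by norm_num))
        (Nat.mod_lt _ (by norm_num)) h2 h3
      have hm0 : 0 < m' := by
        rcases Nat.eq_zero_or_pos m' with h | h
        · rw [h] at h4; norm_num at h4
        · exact h
      have hlt : m' < m := by
        calc m' < m.minFac * m' := by nlinarith [hq.two_le]
          _ = m := hm'.symm
      obtain ⟨q, hq1, hq2, hq3⟩ := ih m' hlt h4.2
      exact ⟨q, hq1, hq2, hm' ▸ hq3.mul_left _⟩

open Pool.Agent.Kneser in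
/-- The structure theorem for large admissible sets. -/
theorem core (p : ℕ) (hp : p.Prime) (h3 : p % 3 = 2) (h2 : p ≠ 2)
    (hn1 : cornersTheoremBound (1 / (18 * p * (p + 1)) : ℝ) ≤ Fintype.card G)
    (hn2 : 6 * p * (p + 1) < Fintype.card G)
    (hq : ∀ q : ℕ, q.Prime → q % 3 = 2 → q ∣ Fintype.card G → p ≤ q)
    (A : Finset G) (hA : Admissible A) (hbig : (p + 1) * Fintype.card G ≤ 3 * p * A.card) :
    3 * p * A.card = (p + 1) * Fintype.card G ∧ ∃ S : AddSubgroup G, S.index = p ∧
      (∀ x ∈ A, ∀ s ∈ S, x + s ∈ A) ∧ ∀ x ∈ A, ∀ y ∈ A, ∀ z ∈ A, x + y + z ≠ 0 := by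
  classical
  set n := Fintype.card G with hn
  have hp5 : 5 ≤ p := by
    have := hp.two_le
    by_contra hcon
    have h4 : p = 3 ∨ p = 4 := by omega
    rcases h4 with rfl | rfl <;> norm_num at h3
  have hodd : Odd n := by
    rw [← Nat.not_even_iff_odd]
    intro he
    have := hq 2 Nat.prime_two (by norm_num) he.two_dvd
    omega
  -- few degenerate solutions
  have hE := card_EE_le hodd A hA (1 / (18 * p * (p + 1)) : ℝ) (by positivity) hn1
  have hE' : 6 * p * (p + 1) * (EE A).card ≤ n := by
    have h4 : (6 * p * (p + 1) * (EE A).card : ℝ) ≤ n := by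
      have hpp : (0 : ℝ) < 6 * p * (p + 1) := by positivity
      have h5 : 3 * (1 / (18 * p * (p + 1)) * (n : ℝ)) = n / (6 * p * (p + 1)) := by
        field_simp
        ring
      rw [← hn, h5, le_div_iff₀ hpp] at hE
      linarith
    exact_mod_cast h4
  set e := (EE A).card with he
  set A' := (A \ EE A).erase 0 with hA'
  have hA'A : A' ⊆ A := (Finset.erase_subset _ _).trans Finset.sdiff_subset
  have hA'card : A.card ≤ A'.card + e + 1 := by
    have h4 : A.card ≤ (A \ EE A).card + (EE A).card := by
      have := Finset.card_le_card (Finset.subset_union_left (s₁ := A) (s₂ := EE A))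
      have h5 := Finset.card_sdiff_add_card A (EE A)
      omega
    have h5 : (A \ EE A).card ≤ A'.card + 1 := by
      have := Finset.pred_card_le_card_erase (s := A \ EE A) (a := 0)
      rw [hA']
      omega
    omega
  -- no solutions in `A'`
  have hsol : ∀ x ∈ A', ∀ y ∈ A', ∀ z ∈ A', x + y + z ≠ 0 := by
    have hdeg : ∀ x ∈ A', ∀ z ∈ A', x + x + z ≠ 0 := by
      intro x hx z hz h
      rw [hA', Finset.mem_erase, Finset.mem_sdiff] at hx
      apply hx.2.2
      rw [EE, Finset.mem_filter]
      refine ⟨hx.2.1, hx.1, ?_⟩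
      have : -(x + x) = z := neg_eq_of_add_eq_zero_right h
      rw [this]
      exact hA'A hz
    intro x hx y hy z hz h
    by_cases hxy : x = y
    · subst hxy; exact hdeg x hx z hz h
    by_cases hxz : x = z
    · subst hxz
      apply hdeg x hx y hy
      rw [← h]; abel
    by_cases hyz : y = z
    · subst hyz
      apply hdeg y hy x hx
      rw [← h]; abel
    exact hA x (hA'A hx) y (hA'A hy) z (hA'A hz) hxy hxz hyz h
  have hp0 : 0 < p := by omega
  have hA'ne : A'.Nonempty := by
    rw [Finset.nonempty_iff_ne_empty]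
    intro h
    rw [h, Finset.card_empty] at hA'card
    have := (num1 (w := 0) (s := 0) hp0 hbig hE' hn2 hA'card le_rfl (Nat.zero_le _)).2
    omega
  set S := stab (A' + A') with hS
  have hSsub : IsSub S := isSub_stab _
  set W := A' + S with hW
  have hA'W : A' ⊆ W := by
    intro x hx
    rw [hW, Finset.mem_add]
    exact ⟨x, hx, 0, hSsub.zero, add_zero x⟩
  have hkn := kneser (A := A') (B := A') hA'ne hA'ne
  rw [← hS, ← hW] at hkn
  have hdisj : ∀ w ∈ W, -w ∉ A' + A' := by
    intro w hw hmem
    rw [hW, Finset.mem_add] at hw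
    obtain ⟨z, hz, t, ht, rfl⟩ := hw
    have h4 : t + -(z + t) ∈ A' + A' := (mem_stab.1 ht _).2 hmem
    have h5 : t + -(z + t) = -z := by abel
    rw [h5, Finset.mem_add] at h4
    obtain ⟨x, hx, y, hy, hxy⟩ := h4
    apply hsol x hx y hy z hz
    rw [hxy]; abel
  have hcount : (A' + A').card + W.card ≤ n := by
    have h4 : (W.image (fun w => -w)).card = W.card :=
      Finset.card_image_of_injective _ neg_injective
    rw [← h4, ← Finset.card_union_of_disjoint]
    · exact Finset.card_le_univ _
    · rw [Finset.disjoint_right]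
      intro x hx hx'
      rw [Finset.mem_image] at hx
      obtain ⟨w, hw, rfl⟩ := hx
      exact hdisj w hw hx'
  have hWle : A'.card ≤ W.card := Finset.card_le_card hA'W
  have h3W : 3 * W.card ≤ n + S.card := by omega
  -- the index
  have hWst : ∀ w ∈ W, ∀ s ∈ S, s + w ∈ W := by
    intro w hw s hs
    rw [hW, Finset.mem_add] at hw ⊢
    obtain ⟨z, hz, t, ht, rfl⟩ := hw
    exact ⟨z, hz, t + s, hSsub.add ht hs, by abel⟩
  obtain ⟨α, hα⟩ := dvd_card_of_stable S hSsub _ W rfl hWst
  have hSdvd : S.card ∣ n := by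
    rw [← card_toSub S hSsub, hn, ← Nat.card_eq_fintype_card]
    exact AddSubgroup.card_addSubgroup_dvd_card _
  obtain ⟨m, hm⟩ := hSdvd
  have hSpos : 0 < S.card := Finset.card_pos.2 ⟨0, hSsub.zero⟩
  have hk1 : 3 * p * A.card ≤ 3 * p * (A'.card + e + 1) := Nat.mul_le_mul_left _ hA'card
  obtain ⟨hG1, hG2⟩ := num1 hp0 hbig hE' hn2 hA'card hWle h3W
  have hα1 : 3 * α = m + 1 := by
    have h4 : m < 3 * α := by
      have : S.card * m < S.card * (3 * α) := by
        calc S.card * m = n := hm.symm
          _ < 3 * W.card := hG2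
          _ = S.card * (3 * α) := by rw [hα]; ring
      exact Nat.lt_of_mul_lt_mul_left this
    have h5 : 3 * α ≤ m + 1 := by
      have : S.card * (3 * α) ≤ S.card * (m + 1) := by
        calc S.card * (3 * α) = 3 * W.card := by rw [hα]; ring
          _ ≤ n + S.card := h3W
          _ = S.card * (m + 1) := by rw [hm]; ring
      exact Nat.le_of_mul_le_mul_left this hSpos
    omega
  have hmp : m = p := by
    obtain ⟨q, hq1, hq2, hq3⟩ := exists_prime_factor m (by omega)
    have h4 := hq q hq1 hq2 (hm ▸ hq3.mul_left _)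
    have h5 : q ≤ m := Nat.le_of_dvd (by omega) hq3
    have h6 : m < p + 1 := by
      rw [hm, mul_comm] at hG1
      exact Nat.lt_of_mul_lt_mul_right hG1
    omega
  subst hmp
  -- now `3 * α = m + 1`, `|W| = α |S|`, `n = m |S|`
  have hWbig : 3 * m * W.card = (m + 1) * n := by
    rw [hα, hm, ← hα1]; ring
  have hcompl : ∀ x, x ∉ W → -x ∈ A' + A' := by
    have h4 : (A' + A').card + (W.image (fun w => -w)).card = Fintype.card G := by
      rw [Finset.card_image_of_injective _ neg_injective]
      apply le_antisymm hcount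
      have h5 : n = 3 * W.card - S.card := by
        have : 3 * W.card = n + S.card := by
          rw [hα, hm]
          have : 3 * (S.card * α) = S.card * (3 * α) := by ring
          rw [this, hα1]; ring
        omega
      omega
    intro x hx
    by_contra hcon
    have h5 : -x ∉ W.image (fun w => -w) := by
      intro h
      rw [Finset.mem_image] at h
      obtain ⟨w, hw, hwx⟩ := h
      rw [neg_inj] at hwx
      exact hx (hwx ▸ hw)
    have h6 : ((A' + A') ∪ W.image (fun w => -w)).card = Fintype.card G := by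
      rw [Finset.card_union_of_disjoint, h4]
      rw [Finset.disjoint_right]
      intro y hy hy'
      rw [Finset.mem_image] at hy
      obtain ⟨w, hw, rfl⟩ := hy
      exact hdisj w hw hy'
    rw [Finset.card_eq_iff_eq_univ] at h6
    have h7 : -x ∈ (A' + A') ∪ W.image (fun w => -w) := by rw [h6]; exact Finset.mem_univ _
    rw [Finset.mem_union] at h7
    tauto
  have hs_big : 2 * (e + 1) + 1 < S.card := num2 hp5 (hm ▸ hn2) (hm ▸ hE')
  have hmiss : (W \ A').card ≤ e + 1 := by
    rw [Finset.card_sdiff_of_subset hA'W]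
    have h4 : 3 * m * W.card ≤ 3 * m * (A'.card + e + 1) := by
      rw [hWbig]; exact hbig.trans hk1
    have h5 : W.card ≤ A'.card + e + 1 := Nat.le_of_mul_le_mul_left h4 (by omega)
    omega
  have hAW : A ⊆ W := by
    intro x hx
    by_contra hxW
    obtain ⟨u, hu, v, hv, huv⟩ := Finset.mem_add.1 (hcompl x hxW)
    -- bad translations
    set B₁ := S.filter (fun t => u + t ∉ A') with hB₁
    set B₂ := S.filter (fun t => v - t ∉ A') with hB₂
    set B₃ := S.filter (fun t => u + t = v - t) with hB₃
    have hb1 : B₁.card ≤ e + 1 := by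
      refine le_trans ?_ hmiss
      apply Finset.card_le_card_of_injOn (fun t => u + t)
      · intro t ht
        rw [Finset.mem_coe, hB₁, Finset.mem_filter] at ht
        rw [Finset.mem_coe, Finset.mem_sdiff]
        refine ⟨?_, ht.2⟩
        show u + t ∈ W
        rw [add_comm]
        exact hWst u (hA'W hu) t ht.1
      · intro t _ t' _ h
        simpa using h
    have hb2 : B₂.card ≤ e + 1 := by
      refine le_trans ?_ hmiss
      apply Finset.card_le_card_of_injOn (fun t => v - t)
      · intro t ht
        rw [Finset.mem_coe, hB₂, Finset.mem_filter] at ht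
        rw [Finset.mem_coe, Finset.mem_sdiff]
        refine ⟨?_, ht.2⟩
        show v - t ∈ W
        rw [sub_eq_add_neg, add_comm]
        exact hWst v (hA'W hv) (-t) (hSsub.neg ht.1)
      · intro t _ t' _ h
        simpa using h
    have hb3 : B₃.card ≤ 1 := by
      rw [Finset.card_le_one]
      intro t ht t' ht'
      rw [hB₃, Finset.mem_filter] at ht ht'
      apply two_inj hodd
      have h4 : t + t = v - u := by
        have := ht.2
        have h5 : t + t = (u + t) + t - u := by abel
        rw [h5, this]; abel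
      have h4' : t' + t' = v - u := by
        have := ht'.2
        have h5 : t' + t' = (u + t') + t' - u := by abel
        rw [h5, this]; abel
      rw [h4, h4']
    obtain ⟨t, htS, ht1, ht2, ht3⟩ : ∃ t ∈ S, t ∉ B₁ ∧ t ∉ B₂ ∧ t ∉ B₃ := by
      by_contra hcon
      have hsub : S ⊆ B₁ ∪ (B₂ ∪ B₃) := by
        intro t ht
        by_contra h
        rw [Finset.mem_union, Finset.mem_union, not_or, not_or] at h
        exact hcon ⟨t, ht, h⟩
      have h4 := Finset.card_le_card hsub
      have h5 := Finset.card_union_le B₁ (B₂ ∪ B₃)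
      have h6 := Finset.card_union_le B₂ B₃
      omega
    have hu' : u + t ∈ A' := by
      by_contra h
      exact ht1 (Finset.mem_filter.2 ⟨htS, h⟩)
    have hv' : v - t ∈ A' := by
      by_contra h
      exact ht2 (Finset.mem_filter.2 ⟨htS, h⟩)
    have hne : u + t ≠ v - t := fun h => ht3 (Finset.mem_filter.2 ⟨htS, h⟩)
    have hxu : x ≠ u + t := fun h => hxW (h ▸ hA'W hu')
    have hxv : x ≠ v - t := fun h => hxW (h ▸ hA'W hv')
    apply hA x hx _ (hA'A hu') _ (hA'A hv') hxu hxv hne
    have : x + (u + t) + (v - t) = x + (u + v) := by abel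
    rw [this, huv, add_neg_cancel]
  have hAcard : A.card ≤ W.card := Finset.card_le_card hAW
  have heq : A = W := by
    apply Finset.eq_of_subset_of_card_le hAW
    have h4 : 3 * m * W.card ≤ 3 * m * A.card := by rw [hWbig]; exact hbig
    exact Nat.le_of_mul_le_mul_left h4 (by omega)
  refine ⟨by rw [heq]; exact hWbig, toSub S hSsub, ?_, ?_, ?_⟩
  · have h4 := (toSub S hSsub).card_mul_index
    rw [card_toSub, Nat.card_eq_fintype_card, ← hn, hm] at h4
    exact Nat.eq_of_mul_eq_mul_left hSpos h4
  · intro x hx s hs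
    rw [heq] at hx ⊢
    rw [add_comm]
    exact hWst x hx s hs
  · intro x hx y hy z hz h
    rw [heq] at hx hy hz
    apply hdisj z hz
    have h4 : -z = x + y := by
      rw [neg_eq_iff_add_eq_zero, ← h]; abel
    rw [h4]
    rw [hW, Finset.mem_add] at hx hy
    obtain ⟨x', hx', s, hs, rfl⟩ := hx
    obtain ⟨y', hy', t, ht, rfl⟩ := hy
    have h5 : x' + s + (y' + t) = (s + t) + (x' + y') := by abel
    rw [h5, mem_stab.1 (hSsub.add hs ht)]
    exact Finset.add_mem_add hx' hy'

end Upper

theorem exists_linear_surj {K V : Type*} [Field K] [AddCommGroup V] [Module K V] [Nontrivial V] :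
    ∃ φ : V →ₗ[K] K, Function.Surjective φ := by
  let b := Module.Basis.ofVectorSpace K V
  obtain ⟨i⟩ := b.index_nonempty
  refine ⟨b.coord i, fun y => ⟨y • b i, ?_⟩⟩
  simp

theorem exists_surj_of_torsion {Q : Type u} [AddCommGroup Q] [Nontrivial Q] (p : ℕ)
    [Fact p.Prime] (hz : ∀ x : Q, p • x = 0) : ∃ φ : Q →+ ZMod p, Function.Surjective φ := by
  let _ : Module (ZMod p) Q := AddCommGroup.zmodModule hz
  obtain ⟨φ, hφ⟩ := exists_linear_surj (K := ZMod p) (V := Q)
  exact ⟨φ.toAddMonoidHom, hφ⟩

section Lower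
variable {G : Type u} [AddCommGroup G] [Fintype G] [DecidableEq G]

set_option linter.unusedSectionVars false

theorem exists_hom (p : ℕ) (hp : p.Prime) (hd : p ∣ Fintype.card G) :
    ∃ φ : G →+ ZMod p, Function.Surjective φ := by
  have _ : Fact p.Prime := ⟨hp⟩
  set f : G →+ G := nsmulAddMonoidHom p with hf
  have hninj : ¬ Function.Injective f := by
    intro hinj
    obtain ⟨x, hx⟩ := exists_prime_addOrderOf_dvd_card p hd
    have h1 : f x = f 0 := by
      have : p • x = 0 := by rw [← hx]; exact addOrderOf_nsmul_eq_zero x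
      simp [hf, this]
    have h2 := hinj h1
    rw [h2, addOrderOf_zero] at hx
    exact hp.one_lt.ne hx
  have hnsurj : ¬ Function.Surjective f := fun h => hninj (Finite.injective_iff_surjective.2 h)
  have hrange : f.range ≠ ⊤ := fun h => hnsurj (AddMonoidHom.range_eq_top.1 h)
  have hne : Nontrivial (G ⧸ f.range) := by
    rw [QuotientAddGroup.nontrivial_iff]
    exact hrange
  have hz : ∀ x : G ⧸ f.range, p • x = 0 := by
    intro x
    obtain ⟨y, rfl⟩ := QuotientAddGroup.mk_surjective x
    rw [← QuotientAddGroup.mk_nsmul, QuotientAddGroup.eq_zero_iff]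
    exact ⟨y, rfl⟩
  obtain ⟨φ, hφ⟩ := exists_surj_of_torsion p hz
  exact ⟨φ.comp (QuotientAddGroup.mk' f.range), hφ.comp (QuotientAddGroup.mk'_surjective _)⟩

theorem lower (p : ℕ) (hp : p.Prime) (h3 : p % 3 = 2) (hd : p ∣ Fintype.card G) :
    ∃ H : Finset G, Admissible H ∧ 3 * p * H.card = (p + 1) * Fintype.card G := by
  classical
  have _ : Fact p.Prime := ⟨hp⟩
  obtain ⟨φ, hφ⟩ := exists_hom (G := G) p hp hd
  obtain ⟨j, hj⟩ : ∃ j, p = 3 * j + 2 := ⟨p / 3, by omega⟩
  set T : Finset (ZMod p) := (Finset.Icc (j + 1) (2 * j + 1)).image (fun i : ℕ => (i : ZMod p))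
    with hT
  have hTcard : T.card = j + 1 := by
    rw [hT, Finset.card_image_of_injOn, Nat.card_Icc]
    · omega
    · intro i hi i' hi' h
      rw [Finset.mem_coe, Finset.mem_Icc] at hi hi'
      have h1 : ((i : ℕ) : ZMod p) = ((i' : ℕ) : ZMod p) := h
      rw [ZMod.natCast_eq_natCast_iff'] at h1
      rwa [Nat.mod_eq_of_lt (by omega), Nat.mod_eq_of_lt (by omega)] at h1
  set s := (univ.filter (fun g : G => φ g = 0)).card with hs
  have hfib : ∀ t : ZMod p, (univ.filter (fun g : G => φ g = t)).card = s := fun t =>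
    AddMonoidHom.card_fiber_eq_of_mem_range φ (hφ t) (hφ 0)
  have hn : Fintype.card G = p * s := by
    have h1 := Finset.card_eq_sum_card_fiberwise (f := φ) (s := (univ : Finset G))
      (t := (univ : Finset (ZMod p))) (fun _ _ => Finset.mem_coe.2 (Finset.mem_univ _))
    rw [Finset.card_univ] at h1
    rw [h1, Finset.sum_congr rfl (fun t _ => hfib t), Finset.sum_const, Finset.card_univ,
      ZMod.card, smul_eq_mul]
  refine ⟨univ.filter (fun g : G => φ g ∈ T), ?_, ?_⟩
  · intro x hx y hy z hz _ _ _ hsum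
    rw [Finset.mem_filter] at hx hy hz
    obtain ⟨a, ha, ha'⟩ := Finset.mem_image.1 hx.2
    obtain ⟨b, hb, hb'⟩ := Finset.mem_image.1 hy.2
    obtain ⟨c, hc, hc'⟩ := Finset.mem_image.1 hz.2
    rw [Finset.mem_Icc] at ha hb hc
    have h1 := congrArg φ hsum
    rw [map_add, map_add, map_zero, ← ha', ← hb', ← hc'] at h1
    have h2 : ((a + b + c : ℕ) : ZMod p) = 0 := by push_cast; exact h1
    rw [ZMod.natCast_eq_zero_iff] at h2
    obtain ⟨k, hk⟩ := h2
    have h4 : k < 2 := by
      by_contra hcon
      have : p * 2 ≤ p * k := Nat.mul_le_mul_left _ (by omega)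
      omega
    interval_cases k <;> omega
  · have h1 : (univ.filter (fun g : G => φ g ∈ T)).card = (j + 1) * s := by
      have h2 := Finset.card_eq_sum_card_fiberwise (f := φ)
        (s := univ.filter (fun g : G => φ g ∈ T)) (t := T)
        (fun g hg => by
          rw [Finset.mem_coe, Finset.mem_filter] at hg
          exact Finset.mem_coe.2 hg.2)
      rw [h2, ← hTcard, ← smul_eq_mul, ← Finset.sum_const]
      apply Finset.sum_congr rfl
      intro t ht
      rw [← hfib t]
      congr 1
      ext g
      simp only [Finset.mem_filter, Finset.mem_univ, true_and]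
      constructor
      · exact fun h => h.2
      · exact fun h => ⟨h ▸ ht, h⟩
    rw [h1, hn, hj]
    ring

end Lower

/-- **Main theorem.** -/
theorem result (p : ℕ) (hp : p.Prime) (h3 : p % 3 = 2) (h2 : p ≠ 2) :
    ∃ N : ℕ, ∀ (G : Type u) [AddCommGroup G] [Finite G], N ≤ Nat.card G → p ∣ Nat.card G →
      (∀ q : ℕ, q.Prime → q % 3 = 2 → q ∣ Nat.card G → p ≤ q) →
        3 * p * D G = (p + 1) * Nat.card G ∧
        ∀ H : Finset G, Admissible H → H.card = D G →
          ∃ S : AddSubgroup G, S.index = p ∧ (∀ x ∈ H, ∀ s ∈ S, x + s ∈ H) ∧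
            ∀ x ∈ H, ∀ y ∈ H, ∀ z ∈ H, x + y + z ≠ 0 := by
  refine ⟨max (cornersTheoremBound (1 / (18 * p * (p + 1)) : ℝ)) (6 * p * (p + 1) + 1), ?_⟩
  intro G _ _ hN hd hq
  classical
  have _ := Fintype.ofFinite G
  rw [Nat.card_eq_fintype_card] at *
  have hN1 := (le_max_left _ _).trans hN
  have hN2 := (le_max_right _ _).trans hN
  have hcore := core (G := G) p hp h3 h2 hN1 (by omega) hq
  obtain ⟨H₀, hH₀, hH₀c⟩ := lower (G := G) p hp h3 hd
  have hp0 : 0 < 3 * p := by have := hp.pos; omega
  have hgreat : IsGreatest {k | ∃ H : Finset G, Admissible H ∧ H.card = k} H₀.card := by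
    refine ⟨⟨H₀, hH₀, rfl⟩, ?_⟩
    rintro k ⟨H, hH, rfl⟩
    by_contra hcon
    rw [not_le] at hcon
    have h4 : 3 * p * H₀.card < 3 * p * H.card := Nat.mul_lt_mul_of_pos_left hcon hp0
    have := (hcore H hH (by omega)).1
    omega
  have hD : D G = H₀.card := hgreat.csSup_eq
  refine ⟨by rw [hD]; exact hH₀c, ?_⟩
  intro H hH hHc
  exact (hcore H hH (by rw [hHc, hD, hH₀c])).2

end Pool.Agent.Results.MP_a8fd3e_co.OddLeastPrime
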